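import Pool.Agent.Helper75.Torus.Goals

set_option autoImplicit false

/-!
# Packet TORUS-OSC of MP_beb0a8_an
-/

open Set MeasureTheory Matrix

namespace Pool.Agent.Helper77.Torus.OSC

open Pool.Agent.Helper75.Torus

/-- The norm of a linear form on `E`. -/
theorem opn (L : E →L[ℝ] ℝ) : ‖L‖ ≤ ∑ j, |L (Pi.single j 1)| := by
  refine ContinuousLinearMap.opNorm_le_bound _ (Finset.sum_nonneg fun j _ => abs_nonneg _) ?_
  intro x
  have hx : x = ∑ j, x j • (Pi.single j (1 : ℝ) : E) := by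
    funext i
    simp [Finset.sum_apply, Pi.single_apply]
  conv_lhs => rw [hx]
  rw [map_sum, Finset.sum_mul]
  refine (norm_sum_le _ _).trans (Finset.sum_le_sum fun j _ => ?_)
  rw [map_smul, smul_eq_mul, norm_mul, Real.norm_eq_abs, Real.norm_eq_abs, mul_comm]
  exact mul_le_mul_of_nonneg_left (by rw [← Real.norm_eq_abs]; exact norm_le_pi_norm x j)
    (abs_nonneg _)

theorem vol_ball {r : ℝ} (hr : 0 ≤ r) : volume.real (Metric.closedBall (0 : E) r) = (2 * r) ^ 3 := by
  rw [Measure.real, Real.volume_pi_closedBall _ hr, Fintype.card_fin,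
    ENNReal.toReal_ofReal (by positivity)]

section W

variable {α H : ℝ} {W : E → ℝ}

theorem fd_sub (hW : Hol α H W) (x y : E) : ‖fderiv ℝ W x - fderiv ℝ W y‖ ≤ 3 * (H * ‖x - y‖ ^ α) := by
  refine (opn _).trans ?_
  calc ∑ j, |(fderiv ℝ W x - fderiv ℝ W y) (Pi.single j 1)|
      ≤ ∑ _j : Fin 3, H * ‖x - y‖ ^ α := Finset.sum_le_sum fun j _ => by
        have := hW.2 x y j
        simpa [pd] using this
    _ = 3 * (H * ‖x - y‖ ^ α) := by simp

theorem fd_zero (hj : Jet0 W) : fderiv ℝ W 0 = 0 := by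
  have h := opn (fderiv ℝ W 0)
  have h2 : ∑ j, |fderiv ℝ W 0 (Pi.single j 1)| = 0 := by
    refine Finset.sum_eq_zero fun j _ => ?_
    have := hj.2 j
    unfold pd at this
    rw [this, abs_zero]
  rw [h2] at h
  exact norm_le_zero_iff.1 h

theorem fd_le (hW : Hol α H W) (hj : Jet0 W) (x : E) : ‖fderiv ℝ W x‖ ≤ 3 * (H * ‖x‖ ^ α) := by
  have := fd_sub hW x 0
  rwa [fd_zero hj, sub_zero, sub_zero] at this

theorem w_sub (hα : 0 < α) (hH : 0 ≤ H) (hW : Hol α H W) (hj : Jet0 W) {r : ℝ} {x y : E}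
    (hx : ‖x‖ ≤ r) (hy : ‖y‖ ≤ r) : |W y - W x| ≤ 3 * (H * r ^ α) * ‖y - x‖ := by
  have hd : Differentiable ℝ W := hW.1.differentiable (by simp)
  have := (convex_closedBall (0 : E) r).norm_image_sub_le_of_norm_fderiv_le (𝕜 := ℝ)
    (f := W) (C := 3 * (H * r ^ α)) (x := x) (y := y) (fun z _ => hd z) (fun z hz => by
      refine (fd_le hW hj z).trans ?_
      have hz' : ‖z‖ ≤ r := by simpa using hz
      have := Real.rpow_le_rpow (norm_nonneg z) hz' hα.le
      nlinarith) (by simpa using hx) (by simpa using hy)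
  simpa using this

theorem w_second (_hH : 0 ≤ H) (hW : Hol α H W) (x h : E) :
    |W (x + h) + W (x - h) - 2 * W x| ≤ 3 * (H * ‖h‖ ^ α) * ‖h‖ := by
  have hd : Differentiable ℝ W := hW.1.differentiable (by simp)
  have hV : ∀ s, HasFDerivAt (fun s => W (s + h) - W s) (fderiv ℝ W (s + h) - fderiv ℝ W s) s := by
    intro s
    have e1 : HasFDerivAt (fun s => W (s + h)) (fderiv ℝ W (s + h)) s := by
      have e0 := (hd (s + h)).hasFDerivAt.comp s ((hasFDerivAt_id s).add_const h)
      rw [ContinuousLinearMap.comp_id] at e0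
      exact e0
    exact e1.sub (hd s).hasFDerivAt
  have := convex_univ.norm_image_sub_le_of_norm_hasFDerivWithin_le (𝕜 := ℝ)
    (f := fun s => W (s + h) - W s) (C := 3 * (H * ‖h‖ ^ α)) (x := x - h) (y := x)
    (s := (univ : Set E)) (fun z _ => (hV z).hasFDerivWithinAt) (fun z _ => by
      refine (fd_sub hW (z + h) z).trans ?_
      rw [add_sub_cancel_left]) (mem_univ _) (mem_univ _)
  have e2 : x - h + h = x := by abel
  have e3 : x - (x - h) = h := by abel
  rw [e2, e3, Real.norm_eq_abs] at this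
  have e4 : W (x + h) + W (x - h) - 2 * W x = W (x + h) - W x - (W x - W (x - h)) := by ring
  rw [e4]
  exact this

end W

theorem g_second {g : E → ℝ} (hg : ContDiff ℝ 2 g) {B : ℝ}
    (hB : ∀ x y, ‖fderiv ℝ g x - fderiv ℝ g y‖ ≤ B * ‖x - y‖) (x h : E) :
    |g (x + h) + g (x - h) - 2 * g x| ≤ B * ‖h‖ * ‖h‖ := by
  have hd : Differentiable ℝ g := hg.differentiable (by simp)
  have hV : ∀ s, HasFDerivAt (fun s => g (s + h) - g s) (fderiv ℝ g (s + h) - fderiv ℝ g s) s := by
    intro s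
    have e1 : HasFDerivAt (fun s => g (s + h)) (fderiv ℝ g (s + h)) s := by
      have e0 := (hd (s + h)).hasFDerivAt.comp s ((hasFDerivAt_id s).add_const h)
      rw [ContinuousLinearMap.comp_id] at e0
      exact e0
    exact e1.sub (hd s).hasFDerivAt
  have := convex_univ.norm_image_sub_le_of_norm_hasFDerivWithin_le (𝕜 := ℝ)
    (f := fun s => g (s + h) - g s) (C := B * ‖h‖) (x := x - h) (y := x)
    (s := (univ : Set E)) (fun z _ => (hV z).hasFDerivWithinAt) (fun z _ => by
      refine (hB (z + h) z).trans ?_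
      rw [add_sub_cancel_left]) (mem_univ _) (mem_univ _)
  have e2 : x - h + h = x := by abel
  have e3 : x - (x - h) = h := by abel
  rw [e2, e3, Real.norm_eq_abs] at this
  have e4 : g (x + h) + g (x - h) - 2 * g x = g (x + h) - g x - (g x - g (x - h)) := by ring
  rw [e4]
  exact this

theorem thm : G_OSC := by
  intro α g κ hα hα1 hg hgc hκ
  have hgcont : Continuous g := hg.continuous
  -- bounds of g
  obtain ⟨B0, hB0⟩ := hgc.exists_bound_of_continuous hgcont
  obtain ⟨B1, hB1⟩ := hg.lipschitzWith_of_hasCompactSupport hgc (by simp)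
  have hdg : ContDiff ℝ 1 (fderiv ℝ g) := hg.fderiv_right (by norm_num)
  obtain ⟨B2, hB2⟩ := hdg.lipschitzWith_of_hasCompactSupport (hgc.fderiv ℝ) (by simp)
  obtain ⟨R1, hR1⟩ := hgc.isCompact.isBounded.subset_closedBall (0 : E)
  set R0 := max R1 0 with hR0
  have hR00 : 0 ≤ R0 := le_max_right _ _
  have hg0 : ∀ y : E, R0 < ‖y‖ → g y = 0 := by
    intro y hy
    by_contra hne
    have h1 := hR1 (subset_tsupport g hne)
    rw [Metric.mem_closedBall, dist_zero_right] at h1
    exact absurd (h1.trans (le_max_left R1 0)) (not_le.2 hy)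
  have hB00 : 0 ≤ B0 := (norm_nonneg _).trans (hB0 0)
  -- the shift
  set h : E := Real.pi • κ with hh
  have hκi : ∀ i, |κ i| ≤ 1 := by
    intro i
    have h1 : ∑ j, κ j * κ j = 1 := hκ
    have h2 : κ i * κ i ≤ ∑ j, κ j * κ j :=
      Finset.single_le_sum (f := fun j => κ j * κ j) (fun j _ => mul_self_nonneg _)
        (Finset.mem_univ i)
    rw [h1] at h2
    exact abs_le_one_iff_mul_self_le_one.2 h2
  have hh4 : ‖h‖ ≤ 4 := by
    rw [hh, norm_smul, Real.norm_of_nonneg Real.pi_pos.le]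
    have h1 : ‖κ‖ ≤ 1 := (pi_norm_le_iff_of_nonneg zero_le_one).2 fun i => by
      rw [Real.norm_eq_abs]
      exact hκi i
    have h2 := Real.pi_lt_four
    have h3 := Real.pi_pos
    nlinarith
  have hκh : κ ⬝ᵥ h = Real.pi := by
    rw [hh, dotProduct_smul, hκ, smul_eq_mul, mul_one]
  set A := R0 + 12 with hA
  have hA12 : 12 ≤ A := by linarith
  set K := 48 * B0 + 96 * (A * B1) + 48 * (A ^ 2 * B2) with hK
  have hK0 : 0 ≤ K := by positivity
  refine ⟨2 * K * A ^ 3, by positivity, ?_⟩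
  intro H W hH hW hj δ hδ τ q hq
  obtain ⟨hδ0, hδ1⟩ := hδ
  have hWc : Continuous W := hW.1.continuous
  set l := A / δ with hl
  have hl1 : 1 ≤ l := by
    rw [hl, le_div_iff₀ hδ0]
    linarith
  have hδl : δ * l = A := by
    rw [hl]
    field_simp
  set G : E → ℝ := fun Y => g (δ • (Y + q)) with hG
  have hGc : Continuous G := by
    simp only [hG]
    fun_prop
  have hGz : ∀ Y : E, l - 8 < ‖Y‖ → G Y = 0 := by
    intro Y hY
    apply hg0
    rw [norm_smul, Real.norm_of_nonneg hδ0.le]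
    have h1 : ‖Y‖ ≤ ‖Y + q‖ + ‖q‖ := by
      calc ‖Y‖ = ‖(Y + q) - q‖ := by rw [add_sub_cancel_right]
        _ ≤ ‖Y + q‖ + ‖q‖ := norm_sub_le _ _
    have h2 : l - 12 < ‖Y + q‖ := by linarith
    have h3 := mul_lt_mul_of_pos_left h2 hδ0
    nlinarith
  set F : E → ℝ := fun Y => W Y * G Y with hF
  have hFc : Continuous F := hWc.mul hGc
  have hFz : ∀ Y : E, l - 8 < ‖Y‖ → F Y = 0 := fun Y hY => by
    simp only [hF]
    rw [hGz Y hY, mul_zero]
  have hFz4 : ∀ a : E, ‖a‖ ≤ 4 → ∀ Y : E, l - 4 < ‖Y‖ → F (Y + a) = 0 := by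
    intro a ha Y hY
    apply hFz
    have : ‖Y‖ ≤ ‖Y + a‖ + ‖a‖ := by
      calc ‖Y‖ = ‖(Y + a) - a‖ := by rw [add_sub_cancel_right]
        _ ≤ ‖Y + a‖ + ‖a‖ := norm_sub_le _ _
    linarith
  set cs : E → ℝ := fun Y => Real.cos (κ ⬝ᵥ Y + τ) with hcs
  have hcsc : Continuous cs := by
    simp only [hcs, dotProduct]
    fun_prop
  have hint : ∀ a : E, ‖a‖ ≤ 4 → Integrable (fun Y => F (Y + a) * cs Y) := by
    intro a ha
    refine Continuous.integrable_of_hasCompactSupport
      ((hFc.comp (continuous_id.add continuous_const)).mul hcsc) ?_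
    refine HasCompactSupport.intro (isCompact_closedBall (0 : E) l) fun Y hY => ?_
    have hY' : l < ‖Y‖ := by simpa using hY
    rw [hFz4 a ha Y (by linarith), zero_mul]
  set I := ∫ Y, F Y * cs Y with hI
  have hp : ∫ Y, F (Y + h) * cs Y = -I := by
    have e1 := integral_add_right_eq_self (μ := (volume : Measure E))
      (fun Y => F Y * cs (Y - h)) h
    have e2 : ∀ Y, F (Y + h) * cs (Y + h - h) = F (Y + h) * cs Y := fun Y => by
      rw [add_sub_cancel_right]
    have e3 : ∀ Y, F Y * cs (Y - h) = -(F Y * cs Y) := fun Y => by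
      have : cs (Y - h) = - cs Y := by
        simp only [hcs]
        rw [dotProduct_sub, hκh, ← Real.cos_sub_pi]
        congr 1
        ring
      rw [this]
      ring
    simp only [e2, e3] at e1
    rw [e1, integral_neg]
  have hm : ∫ Y, F (Y + -h) * cs Y = -I := by
    have e1 := integral_add_right_eq_self (μ := (volume : Measure E))
      (fun Y => F Y * cs (Y + h)) (-h)
    have e2 : ∀ Y, F (Y + -h) * cs (Y + -h + h) = F (Y + -h) * cs Y := fun Y => by
      rw [neg_add_cancel_right]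
    have e3 : ∀ Y, F Y * cs (Y + h) = -(F Y * cs Y) := fun Y => by
      have : cs (Y + h) = - cs Y := by
        simp only [hcs]
        rw [dotProduct_add, hκh, ← Real.cos_add_pi]
        congr 1
        ring
      rw [this]
      ring
    simp only [e2, e3] at e1
    rw [e1, integral_neg]
  have hsum : 4 * I = ∫ Y, (2 * F Y - F (Y + h) - F (Y + -h)) * cs Y := by
    have i0 : Integrable (fun Y => F Y * cs Y) := by simpa using hint 0 (by simp)
    have i1 := hint h hh4
    have i2 := hint (-h) (by rw [norm_neg]; exact hh4)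
    have e : ∀ Y, (2 * F Y - F (Y + h) - F (Y + -h)) * cs Y =
        2 * (F Y * cs Y) - F (Y + h) * cs Y - F (Y + -h) * cs Y := fun Y => by ring
    simp only [e]
    have i01 : Integrable (fun Y => 2 * (F Y * cs Y) - F (Y + h) * cs Y) :=
      (i0.const_mul 2).sub i1
    rw [integral_sub i01 i2, integral_sub (i0.const_mul 2) i1, integral_const_mul, hp, hm]
    ring
  -- the pointwise bound
  have hzero : ∀ Y : E, l - 4 < ‖Y‖ → 2 * F Y - F (Y + h) - F (Y + -h) = 0 := by
    intro Y hY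
    have e0 := hFz4 0 (by simp) Y hY
    rw [add_zero] at e0
    rw [e0, hFz4 h hh4 Y hY, hFz4 (-h) (by rw [norm_neg]; exact hh4) Y hY]
    ring
  have hlα : l ^ α ≤ l := by
    have h1 : l ^ α ≤ l ^ (1 : ℝ) := Real.rpow_le_rpow_of_exponent_le hl1 hα1.le
    rwa [Real.rpow_one] at h1
  have hlα0 : 0 ≤ l ^ α := Real.rpow_nonneg (by linarith) _
  have hhα : ‖h‖ ^ α ≤ 4 := by
    calc ‖h‖ ^ α ≤ (4 : ℝ) ^ α := Real.rpow_le_rpow (norm_nonneg _) hh4 hα.le
      _ ≤ (4 : ℝ) ^ (1 : ℝ) := Real.rpow_le_rpow_of_exponent_le (by norm_num) hα1.le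
      _ = 4 := Real.rpow_one 4
  have hhα0 : 0 ≤ ‖h‖ ^ α := Real.rpow_nonneg (norm_nonneg _) _
  have hδh : ‖δ • h‖ ≤ δ * 4 := by
    rw [norm_smul, Real.norm_of_nonneg hδ0.le]
    exact mul_le_mul_of_nonneg_left hh4 hδ0.le
  have hB10 : (0 : ℝ) ≤ B1 := B1.2
  have hB20 : (0 : ℝ) ≤ B2 := B2.2
  have hG1 : ∀ a : E, ‖a‖ ≤ 4 → ‖δ • a‖ ≤ δ * 4 → ∀ Y, |G (Y + a) - G Y| ≤ B1 * (δ * 4) := by
    intro a _ ha2 Y
    have e := hB1.dist_le_mul (δ • (Y + a + q)) (δ • (Y + q))
    rw [Real.dist_eq, dist_eq_norm] at e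
    have e2 : δ • (Y + a + q) - δ • (Y + q) = δ • a := by
      rw [← smul_sub]
      congr 1
      abel
    rw [e2] at e
    exact e.trans (mul_le_mul_of_nonneg_left ha2 hB10)
  have hG2 : ∀ Y, |G (Y + h) + G (Y + -h) - 2 * G Y| ≤ B2 * (δ * 4) * (δ * 4) := by
    intro Y
    have e := g_second hg (B := B2) (fun x y => by
      have := hB2.dist_le_mul x y
      rwa [dist_eq_norm, dist_eq_norm] at this) (δ • (Y + q)) (δ • h)
    have e1 : δ • (Y + q) + δ • h = δ • (Y + h + q) := by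
      rw [← smul_add]
      congr 1
      abel
    have e2 : δ • (Y + q) - δ • h = δ • (Y + -h + q) := by
      rw [← smul_sub]
      congr 1
      abel
    rw [e1, e2] at e
    refine e.trans ?_
    exact mul_le_mul (mul_le_mul_of_nonneg_left hδh hB20) hδh (norm_nonneg _) (by positivity)
  have hmain : ∀ Y : E, ‖2 * F Y - F (Y + h) - F (Y + -h)‖ ≤ H * K := by
    intro Y
    by_cases hbig : l - 4 < ‖Y‖
    · rw [hzero Y hbig, norm_zero]
      positivity
    push Not at hbig
    have hY : ‖Y‖ ≤ l := by linarith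
    have hYh : ‖Y + h‖ ≤ l := (norm_add_le _ _).trans (by linarith)
    have hYh' : ‖Y + -h‖ ≤ l := (norm_add_le _ _).trans (by rw [norm_neg]; linarith)
    have a1 : |W (Y + h) + W (Y + -h) - 2 * W Y| ≤ 48 * H := by
      have e := w_second hH hW Y h
      rw [sub_eq_add_neg Y h] at e
      refine e.trans ?_
      have e2 : ‖h‖ ^ α * ‖h‖ ≤ 4 * 4 := mul_le_mul hhα hh4 (norm_nonneg _) (by norm_num)
      nlinarith
    have a2 : |W (Y + h) - W Y| ≤ 12 * (H * l ^ α) := by
      have e := w_sub hα hH hW hj hY hYh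
      rw [add_sub_cancel_left] at e
      refine e.trans ?_
      have e3 : 0 ≤ 3 * (H * l ^ α) := by positivity
      nlinarith
    have a2' : |W (Y + -h) - W Y| ≤ 12 * (H * l ^ α) := by
      have e := w_sub hα hH hW hj hY hYh'
      rw [add_sub_cancel_left, norm_neg] at e
      refine e.trans ?_
      have e3 : 0 ≤ 3 * (H * l ^ α) := by positivity
      nlinarith
    have a3 : |W Y| ≤ 3 * (H * l ^ α) * l := by
      have e := w_sub hα hH hW hj (x := 0) (y := Y) (r := l) (by simp; linarith) hY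
      rw [hj.1, sub_zero, sub_zero] at e
      refine e.trans (mul_le_mul_of_nonneg_left hY (by positivity))
    have b0 : |G Y| ≤ B0 := hB0 _
    have b1 := hG1 h hh4 hδh Y
    have b1' := hG1 (-h) (by rw [norm_neg]; exact hh4) (by rw [smul_neg, norm_neg]; exact hδh) Y
    have b2 := hG2 Y
    have hid : 2 * F Y - F (Y + h) - F (Y + -h) =
        -((W (Y + h) + W (Y + -h) - 2 * W Y) * G Y) - (W (Y + h) - W Y) * (G (Y + h) - G Y) -
          (W (Y + -h) - W Y) * (G (Y + -h) - G Y) -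
            W Y * (G (Y + h) + G (Y + -h) - 2 * G Y) := by
      simp only [hF]
      ring
    have c1 : |(W (Y + h) + W (Y + -h) - 2 * W Y) * G Y| ≤ 48 * H * B0 := by
      rw [abs_mul]
      exact mul_le_mul a1 b0 (abs_nonneg _) (by positivity)
    have hδlα : δ * l ^ α ≤ A := by
      rw [← hδl]
      exact mul_le_mul_of_nonneg_left hlα hδ0.le
    have c2 : |(W (Y + h) - W Y) * (G (Y + h) - G Y)| ≤ 48 * H * (A * B1) := by
      rw [abs_mul]
      calc |W (Y + h) - W Y| * |G (Y + h) - G Y|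
          ≤ (12 * (H * l ^ α)) * (B1 * (δ * 4)) :=
            mul_le_mul a2 b1 (abs_nonneg _) (by positivity)
        _ = 48 * H * B1 * (δ * l ^ α) := by ring
        _ ≤ 48 * H * B1 * A := mul_le_mul_of_nonneg_left hδlα (by positivity)
        _ = _ := by ring
    have c2' : |(W (Y + -h) - W Y) * (G (Y + -h) - G Y)| ≤ 48 * H * (A * B1) := by
      rw [abs_mul]
      calc |W (Y + -h) - W Y| * |G (Y + -h) - G Y|
          ≤ (12 * (H * l ^ α)) * (B1 * (δ * 4)) :=
            mul_le_mul a2' b1' (abs_nonneg _) (by positivity)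
        _ = 48 * H * B1 * (δ * l ^ α) := by ring
        _ ≤ 48 * H * B1 * A := mul_le_mul_of_nonneg_left hδlα (by positivity)
        _ = _ := by ring
    have c3 : |W Y * (G (Y + h) + G (Y + -h) - 2 * G Y)| ≤ 48 * H * (A ^ 2 * B2) := by
      rw [abs_mul]
      calc |W Y| * |G (Y + h) + G (Y + -h) - 2 * G Y|
          ≤ (3 * (H * l ^ α) * l) * (B2 * (δ * 4) * (δ * 4)) :=
            mul_le_mul a3 b2 (abs_nonneg _) (by positivity)
        _ = 48 * H * B2 * ((δ * l ^ α) * (δ * l)) := by ring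
        _ ≤ 48 * H * B2 * (A * A) := by
            refine mul_le_mul_of_nonneg_left ?_ (by positivity)
            rw [hδl]
            exact mul_le_mul_of_nonneg_right hδlα (by linarith)
        _ = _ := by ring
    rw [Real.norm_eq_abs, hid]
    have t1 := abs_sub (-((W (Y + h) + W (Y + -h) - 2 * W Y) * G Y) -
      (W (Y + h) - W Y) * (G (Y + h) - G Y) - (W (Y + -h) - W Y) * (G (Y + -h) - G Y))
      (W Y * (G (Y + h) + G (Y + -h) - 2 * G Y))
    have t2 := abs_sub (-((W (Y + h) + W (Y + -h) - 2 * W Y) * G Y) -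
      (W (Y + h) - W Y) * (G (Y + h) - G Y)) ((W (Y + -h) - W Y) * (G (Y + -h) - G Y))
    have t3 := abs_sub (-((W (Y + h) + W (Y + -h) - 2 * W Y) * G Y))
      ((W (Y + h) - W Y) * (G (Y + h) - G Y))
    rw [abs_neg] at t3
    rw [hK]
    nlinarith
  -- conclusion
  have hbound : |4 * I| ≤ H * K * (2 * l) ^ 3 := by
    rw [hsum, ← setIntegral_eq_integral_of_forall_compl_eq_zero (s := Metric.closedBall (0 : E) l)]
    · have e := norm_setIntegral_le_of_norm_le_const (μ := (volume : Measure E))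
        (s := Metric.closedBall (0 : E) l) (f := fun Y => (2 * F Y - F (Y + h) - F (Y + -h)) * cs Y)
        (C := H * K) (isCompact_closedBall _ _).measure_lt_top (fun Y _ => by
          rw [norm_mul]
          have hc1 : ‖cs Y‖ ≤ 1 := Real.abs_cos_le_one _
          calc ‖2 * F Y - F (Y + h) - F (Y + -h)‖ * ‖cs Y‖
              ≤ (H * K) * 1 := mul_le_mul (hmain Y) hc1 (norm_nonneg _) (by positivity)
            _ = H * K := mul_one _)
      rw [vol_ball (by linarith)] at e
      exact e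
    · intro Y hY
      have hY' : l < ‖Y‖ := by simpa using hY
      rw [hzero Y (by linarith), zero_mul]
  have hfin : |δ ^ 3 * I| ≤ 2 * K * A ^ 3 * H := by
    rw [abs_mul, abs_of_nonneg (pow_nonneg hδ0.le 3)]
    rw [abs_mul, abs_of_nonneg (by norm_num : (0 : ℝ) ≤ 4)] at hbound
    have e1 : δ ^ 3 * (4 * |I|) ≤ δ ^ 3 * (H * K * (2 * l) ^ 3) :=
      mul_le_mul_of_nonneg_left hbound (by positivity)
    have e2 : δ ^ 3 * (H * K * (2 * l) ^ 3) = 8 * (H * K) * (δ * l) ^ 3 := by ring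
    rw [e2, hδl] at e1
    linarith
  exact hfin

end Pool.Agent.Helper77.Torus.OSC
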